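import Mathlib

/-!
Naive height on an elliptic curve over `k(t)` in characteristic two: a curve all of whose points
are divisible by two has finitely many points.
-/

namespace Pool.Agent.Lib.MP_788af2_nt.FF

open Polynomial WeierstrassCurve WeierstrassCurve.Affine

variable {k : Type} [Field k]

/-- The height of a rational function. -/
noncomputable def ht (x : RatFunc k) : ℕ := max x.num.natDegree x.denom.natDegree

lemma deg_lin (p q U S : k[X]) {K H : ℕ} (hp : p.natDegree ≤ K) (hq : q.natDegree ≤ K)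
    (hU : U.natDegree ≤ H) (hS : S.natDegree ≤ H) : (p * U + q * S).natDegree ≤ K + H :=
  (natDegree_add_le _ _).trans (max_le (natDegree_mul_le.trans (add_le_add hp hU))
    (natDegree_mul_le.trans (add_le_add hq hS)))

lemma deg_core {T U α β g n d : k[X]} (hT : T ≠ 0) (hg : g ∣ T) {L : ℕ}
    (hα : α.natDegree ≤ L) (hβ : β.natDegree ≤ L)
    (h : T * U ^ 3 = α * (g * n) + β * (g * d)) :
    3 * U.natDegree ≤ L + max n.natDegree d.natDegree := by
  obtain ⟨T', rfl⟩ := hg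
  have hg0 : g ≠ 0 := left_ne_zero_of_mul hT
  have hT' : T' ≠ 0 := right_ne_zero_of_mul hT
  have h1 : T' * U ^ 3 = α * n + β * d := mul_left_cancel₀ hg0 (by linear_combination h)
  by_cases hU : U = 0
  · simp [hU]
  have h2 : (T' * U ^ 3).natDegree = T'.natDegree + 3 * U.natDegree := by
    rw [natDegree_mul hT' (pow_ne_zero _ hU), natDegree_pow]
  have h3 := deg_lin α β n d hα hβ (le_max_left _ d.natDegree) (le_max_right n.natDegree _)
  rw [← h1, h2] at h3
  omega

/-- The resultant inequality for the pair of forms of the duplication map. -/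
lemma res_ineq (c B2 B4 B6 B8 : k[X]) (hc : c ≠ 0)
    (hR : c * B6 ^ 2 - B2 * B4 * B6 + B2 ^ 2 * B8 ≠ 0) :
    ∃ K : ℕ, ∀ U S g n d : k[X], IsCoprime U S →
      c * U ^ 2 + B4 * U * S + B8 * S ^ 2 = g * n → (B2 * U + B6 * S) * S = g * d →
      2 * max U.natDegree S.natDegree ≤ K + max n.natDegree d.natDegree := by
  set R := c * B6 ^ 2 - B2 * B4 * B6 + B2 ^ 2 * B8 with hRdef
  set E := B4 * B6 - B2 * B8 with hE
  let l : List k[X] := [c * B6 ^ 2 - E * B2, -(E * B6), E * B4 - c * B6 * B8, E * B8, 0,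
    c * B2 ^ 2, -(c * c * B2), c * (c * B6 - B2 * B4)]
  refine ⟨(l.map natDegree).sum, fun U S g n d hUS hN hD => ?_⟩
  have hl : ∀ p ∈ l, p.natDegree ≤ (l.map natDegree).sum := fun p hp =>
    List.single_le_sum (by simp) _ (List.mem_map_of_mem hp)
  have hT : c * R ≠ 0 := mul_ne_zero hc hR
  have e1 : c * R * U ^ 3 = ((c * B6 ^ 2 - E * B2) * U + -(E * B6) * S) * (g * n) +
      ((E * B4 - c * B6 * B8) * U + E * B8 * S) * (g * d) := by
    rw [← hN, ← hD, hRdef, hE]; ring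
  have e2 : c * R * S ^ 3 = (0 * U + c * B2 ^ 2 * S) * (g * n) +
      (-(c * c * B2) * U + c * (c * B6 - B2 * B4) * S) * (g * d) := by
    rw [← hN, ← hD, hRdef]; ring
  have hg : g ∣ c * R := by
    obtain ⟨a, b, hab⟩ := (hUS.pow (m := 3) (n := 3))
    have : c * R = a * (c * R * U ^ 3) + b * (c * R * S ^ 3) := by linear_combination (-(c * R)) * hab
    rw [this, e1, e2]
    exact dvd_add (Dvd.dvd.mul_left (dvd_add (Dvd.dvd.mul_left (dvd_mul_right _ _) _)
      (Dvd.dvd.mul_left (dvd_mul_right _ _) _)) _) (Dvd.dvd.mul_left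
      (dvd_add (Dvd.dvd.mul_left (dvd_mul_right _ _) _)
      (Dvd.dvd.mul_left (dvd_mul_right _ _) _)) _)
  have hU := le_max_left U.natDegree S.natDegree
  have hS := le_max_right U.natDegree S.natDegree
  have h1 := deg_core hT hg (deg_lin _ _ U S (hl _ (by simp [l])) (hl _ (by simp [l])) hU hS)
    (deg_lin _ _ U S (hl _ (by simp [l])) (hl _ (by simp [l])) hU hS) e1
  have h2 := deg_core hT hg (deg_lin _ _ U S (hl _ (by simp [l])) (hl _ (by simp [l])) hU hS)
    (deg_lin _ _ U S (hl _ (by simp [l])) (hl _ (by simp [l])) hU hS) e2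
  omega

lemma exists_common (x₁ x₂ x₃ x₄ : RatFunc k) : ∃ c B₁ B₂ B₃ B₄ : k[X], c ≠ 0 ∧
    algebraMap _ _ B₁ = algebraMap _ _ c * x₁ ∧ algebraMap _ _ B₂ = algebraMap _ _ c * x₂ ∧
    algebraMap _ _ B₃ = algebraMap _ _ c * x₃ ∧ algebraMap _ _ B₄ = algebraMap _ _ c * x₄ := by
  have key : ∀ x : RatFunc k, algebraMap k[X] (RatFunc k) x.num =
      algebraMap k[X] (RatFunc k) x.denom * x := fun x => by
    have h := RatFunc.num_div_denom x
    have h0 : algebraMap k[X] (RatFunc k) x.denom ≠ 0 := RatFunc.algebraMap_ne_zero x.denom_ne_zero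
    rw [div_eq_iff h0] at h
    rw [h, mul_comm]
  refine ⟨x₁.denom * x₂.denom * x₃.denom * x₄.denom, x₁.num * x₂.denom * x₃.denom * x₄.denom,
    x₁.denom * x₂.num * x₃.denom * x₄.denom, x₁.denom * x₂.denom * x₃.num * x₄.denom,
    x₁.denom * x₂.denom * x₃.denom * x₄.num, ?_, ?_, ?_, ?_, ?_⟩
  · exact mul_ne_zero (mul_ne_zero (mul_ne_zero x₁.denom_ne_zero x₂.denom_ne_zero)
      x₃.denom_ne_zero) x₄.denom_ne_zero
  all_goals simp only [map_mul, key]; ring

/-- The height inequality for `x ↦ (x⁴ + b₄x² + b₈) / (b₂x² + b₆)`. -/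
lemma ht_dup (b2 b4 b6 b8 : RatFunc k) (hR : b6 ^ 2 - b2 * b4 * b6 + b2 ^ 2 * b8 ≠ 0) :
    ∃ K : ℕ, ∀ x : RatFunc k, (b2 * x ^ 2 + b6 = 0 → 4 * ht x ≤ K) ∧
      ∀ x' : RatFunc k, b2 * x ^ 2 + b6 ≠ 0 → x' * (b2 * x ^ 2 + b6) = x ^ 4 + b4 * x ^ 2 + b8 →
        4 * ht x ≤ K + ht x' := by
  obtain ⟨c, B2, B4, B6, B8, hc, h2, h4, h6, h8⟩ := exists_common b2 b4 b6 b8
  have inj := RatFunc.algebraMap_injective k
  have hc' : algebraMap k[X] (RatFunc k) c ≠ 0 := RatFunc.algebraMap_ne_zero hc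
  obtain ⟨K, hK⟩ := res_ineq c B2 B4 B6 B8 hc (by
    intro h
    have h1 := congrArg (algebraMap k[X] (RatFunc k)) h
    simp only [map_add, map_sub, map_mul, map_pow, h2, h4, h6, h8, map_zero] at h1
    exact hR (mul_left_cancel₀ (pow_ne_zero 3 hc') (by linear_combination h1)))
  refine ⟨K, fun x => ?_⟩
  have key : ∀ x : RatFunc k, algebraMap k[X] (RatFunc k) x.num =
      algebraMap k[X] (RatFunc k) x.denom * x := fun x => by
    have h := RatFunc.num_div_denom x
    have h0 : algebraMap k[X] (RatFunc k) x.denom ≠ 0 := RatFunc.algebraMap_ne_zero x.denom_ne_zero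
    rw [div_eq_iff h0] at h
    rw [h, mul_comm]
  have hco : IsCoprime (x.num ^ 2) (x.denom ^ 2) := (RatFunc.isCoprime_num_denom x).pow
  have hm : max (x.num ^ 2).natDegree (x.denom ^ 2).natDegree = 2 * ht x := by
    simp only [natDegree_pow, ht]; omega
  refine ⟨fun h => ?_, fun x' _ h => ?_⟩
  · have h1 := hK (x.num ^ 2) (x.denom ^ 2) _ 1 0 hco (mul_one _).symm (inj (by
      simp only [map_add, map_mul, map_pow, h2, h6, key, map_zero]
      linear_combination (algebraMap k[X] (RatFunc k) c * (algebraMap k[X] (RatFunc k) x.denom) ^ 4) * h))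
    rw [hm] at h1
    simp only [natDegree_one, natDegree_zero] at h1
    omega
  · have e : x'.num * ((B2 * x.num ^ 2 + B6 * x.denom ^ 2) * x.denom ^ 2) =
        (c * (x.num ^ 2) ^ 2 + B4 * x.num ^ 2 * x.denom ^ 2 + B8 * (x.denom ^ 2) ^ 2) * x'.denom :=
      inj (by
        simp only [map_add, map_mul, map_pow, h2, h4, h6, h8, key]
        linear_combination (algebraMap k[X] (RatFunc k) c * (algebraMap k[X] (RatFunc k) x.denom) ^ 4
          * algebraMap k[X] (RatFunc k) x'.denom) * h)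
    obtain ⟨g, hg⟩ : x'.denom ∣ (B2 * x.num ^ 2 + B6 * x.denom ^ 2) * x.denom ^ 2 :=
      (RatFunc.isCoprime_num_denom x').symm.dvd_of_dvd_mul_left (by rw [e]; exact dvd_mul_left _ _)
    have h1 := hK (x.num ^ 2) (x.denom ^ 2) g x'.num x'.denom hco
      (mul_right_cancel₀ x'.denom_ne_zero (by rw [← e, hg]; ring)) (by rw [hg]; ring)
    rw [hm] at h1
    change _ ≤ K + ht x' at h1
    omega

lemma finite_ht [Finite k] (B : ℕ) : {x : RatFunc k | ht x ≤ B}.Finite := by
  have h1 : {p : k[X] | p.natDegree ≤ B}.Finite := by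
    refine Set.Finite.of_finite_image (f := fun p (i : Fin (B + 1)) => p.coeff i) (Set.toFinite _) ?_
    intro p hp q hq h
    ext i
    by_cases hi : i < B + 1
    · exact congrFun h ⟨i, hi⟩
    · rw [coeff_eq_zero_of_natDegree_lt (lt_of_le_of_lt hp (by omega)),
        coeff_eq_zero_of_natDegree_lt (lt_of_le_of_lt hq (by omega))]
  refine ((h1.prod h1).image fun p : k[X] × k[X] =>
    algebraMap k[X] (RatFunc k) p.1 / algebraMap k[X] (RatFunc k) p.2).subset fun x hx => ?_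
  have hx' : max x.num.natDegree x.denom.natDegree ≤ B := hx
  exact ⟨(x.num, x.denom), max_le_iff.1 hx', RatFunc.num_div_denom x⟩

/-- The naive height of a point. -/
noncomputable def hP {W : Affine (RatFunc k)} : W.Point → ℕ
  | .zero => 0
  | .some x _ _ => ht x

lemma finite_hP [Finite k] (W : Affine (RatFunc k)) (B : ℕ) : {P : W.Point | hP P ≤ B}.Finite := by
  have h1 : {p : RatFunc k × RatFunc k | ht p.1 ≤ B ∧ W.Equation p.1 p.2}.Finite := by
    refine Set.Finite.of_finite_fibers Prod.fst ((finite_ht B).subset ?_) fun x _ => ?_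
    · rintro _ ⟨p, hp, rfl⟩
      exact hp.1
    · let f : (RatFunc k)[X] := X ^ 2 + C (W.a₁ * x + W.a₃) * X -
        C (x ^ 3 + W.a₂ * x ^ 2 + W.a₄ * x + W.a₆)
      have hf : f ≠ 0 := fun h => by
        have := congrArg (fun p => p.coeff 2) h
        simp only [f, coeff_sub, coeff_add, coeff_X_pow, coeff_C_mul, coeff_X, coeff_C] at this
        simp at this
      refine ((finite_setOfPred_isRoot hf).image fun y => (x, y)).subset ?_
      rintro ⟨x', y⟩ ⟨hp, rfl⟩
      refine ⟨y, ?_, rfl⟩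
      have := (equation_iff _ _).1 hp.2
      simp only [Set.mem_ofPred_eq, IsRoot.def, f, eval_sub, eval_add, eval_mul, eval_pow, eval_X,
        eval_C]
      linear_combination this
  let g : W.Point → Option (RatFunc k × RatFunc k) := fun P => match P with
    | .zero => none
    | .some x y _ => some (x, y)
  refine Set.Finite.of_finite_image (f := g) (((h1.image some).insert none).subset ?_) ?_
  · rintro _ ⟨_ | ⟨x, y, h⟩, hp, rfl⟩
    · exact Set.mem_insert _ _
    · exact Set.mem_insert_of_mem _ ⟨(x, y), ⟨hp, h.1⟩, rfl⟩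
  · rintro (_ | ⟨x, y, h⟩) - (_ | ⟨x', y', h'⟩) - e <;> simp only [g] at e
    · rfl
    · cases e
    · cases e
    · cases e; rfl

lemma hP_two [CharP k 2] [DecidableEq (RatFunc k)] (W : Affine (RatFunc k)) (hW : W.Δ ≠ 0) :
    ∃ K : ℕ, ∀ P : W.Point, 4 * hP P ≤ K + hP (P + P) := by
  have : CharP (RatFunc k) 2 := algebraMap k (RatFunc k) |>.charP_iff_charP 2 |>.1 inferInstance
  have h2 : (2 : RatFunc k) = 0 := CharTwo.two_eq_zero
  obtain ⟨K, hK⟩ := ht_dup W.b₂ W.b₄ W.b₆ W.b₈ (fun h => hW (by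
    rw [WeierstrassCurve.Δ]
    linear_combination (-1) * h + (-4 * W.b₄ ^ 3 - 13 * W.b₆ ^ 2 + 4 * W.b₂ * W.b₄ * W.b₆) * h2))
  refine ⟨K, ?_⟩
  rintro (_ | ⟨x, y, h⟩)
  · simp [hP]
  have hs : W.b₂ * x ^ 2 + W.b₆ = (y - W.negY x y) ^ 2 := by
    simp only [b₂, b₆, negY]
    linear_combination (2 * W.a₂ * x ^ 2 + 2 * W.a₆ - 2 * y ^ 2 - 2 * y * W.a₁ * x - 2 * y * W.a₃
      - W.a₁ * x * W.a₃) * h2
  by_cases hy : y = W.negY x y
  · exact ((hK x).1 (by rw [hs, sub_eq_zero.2 hy]; simp)).trans (Nat.le_add_right _ _)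
  · rw [Point.add_self_of_Y_ne hy]
    have h0 : y - W.negY x y ≠ 0 := sub_ne_zero.2 hy
    refine (hK x).2 _ (hs ▸ pow_ne_zero 2 h0) ?_
    have he := (equation_iff _ _).1 h.1
    rw [hs, slope_of_Y_ne rfl hy, addX]
    have e : ∀ M ψ : RatFunc k, ψ ≠ 0 → ((M / ψ) ^ 2 + W.a₁ * (M / ψ) - W.a₂ - x - x) * ψ ^ 2 =
        M ^ 2 + W.a₁ * M * ψ - (W.a₂ + 2 * x) * ψ ^ 2 := fun M ψ h => by field_simp; ring
    rw [e _ _ h0]
    simp only [b₄, b₈, negY]
    linear_combination (-W.a₁ ^ 2 - 4 * W.a₂ - 8 * x) * he - ((2 * W.a₄ + W.a₁ * W.a₃) * x ^ 2 +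
      (W.a₃ ^ 2 + 4 * W.a₆) * x + (W.a₁ ^ 2 * W.a₆ + 4 * W.a₂ * W.a₆ - W.a₁ * W.a₃ * W.a₄ +
      W.a₂ * W.a₃ ^ 2 - W.a₄ ^ 2)) * h2

/-- If every point is divisible by two, there are finitely many points. -/
theorem finite_of_div [Finite k] [CharP k 2] [DecidableEq (RatFunc k)] (W : Affine (RatFunc k))
    (hW : W.Δ ≠ 0) (h : ∀ P : W.Point, ∃ Q : W.Point, Q + Q = P) : Finite W.Point := by
  obtain ⟨K, hK⟩ := hP_two W hW
  choose s hs using h
  have hinj : Function.Injective s := fun P Q e => by rw [← hs P, ← hs Q, e]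
  have hB := finite_hP W K
  have hmaps : Set.MapsTo s {P : W.Point | hP P ≤ K} {P : W.Point | hP P ≤ K} := fun P hp => by
    have h1 := hK (s P)
    rw [hs] at h1
    have : hP P ≤ K := hp
    change hP (s P) ≤ K
    omega
  have hbij := (hB.injOn_iff_bijOn_of_mapsTo hmaps).1 hinj.injOn
  have hall : ∀ n (P : W.Point), hP P ≤ n → hP P ≤ K := by
    intro n
    induction n with
    | zero => intro P hp; omega
    | succ n ih =>
      intro P hp
      by_contra hc
      have h1 := hK (s P)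
      rw [hs] at h1
      obtain ⟨Q, hQ, e⟩ := hbij.surjOn (show s P ∈ {P : W.Point | hP P ≤ K} from
        ih _ (by omega))
      exact hc (hinj e ▸ hQ)
  exact Set.finite_univ_iff.1 (hB.subset fun P _ => hall _ P le_rfl)

end Pool.Agent.Lib.MP_788af2_nt.FF
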