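import Pool.Agent.Lib.MP_788af2_nt.FF.Ht
import Pool.Agent.Lib.MP_a3f657_nt.C2All

/-!
Curves over `k(t)` with trivial 2-Selmer group have finitely many points.
-/

namespace Pool.Agent.Lib.MP_788af2_nt.FF

open Pool.Agent.Lib.MP_a3f657_nt.Two WeierstrassCurve
open scoped Polynomial

attribute [local instance 10000] Classical.propDecidable

variable {k : Type} [Field k] [Fintype k] [CharP k 2]

omit [CharP k 2] in
lemma dens_mono {P Q : WeierstrassCurve (RatFunc k) → Prop} (h : ∀ W, W.Δ ≠ 0 → P W → Q W)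
    (d : ℕ) : dens P d ≤ dens Q d := by
  refine div_le_div_of_nonneg_right (Nat.cast_le.2 (Set.ncard_le_ncard ?_ ?_)) (Nat.cast_nonneg _)
  · rintro _ ⟨W, rfl, h1, h2, h3⟩
    exact ⟨W, rfl, h1, h2, h W h1 h3⟩
  · refine ((finite_degLE (k := k) d).image clq).subset ?_
    rintro _ ⟨W, rfl, -, ⟨C, a, h1, h2⟩, -⟩
    exact ⟨a, h1, Quotient.eq''.2 (MulAction.orbitRel_apply.2 ⟨C, h2⟩)⟩

lemma finite_of_sel (W : WeierstrassCurve (RatFunc k)) (hW : W.Δ ≠ 0) (h : selOrder W = 1) :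
    Finite W.toAffine.Point := by
  have h1 := Nat.eq_one_of_mul_eq_one_right h
  refine finite_of_div W.toAffine hW fun P => ?_
  have h2 := (Nat.card_eq_one_iff_unique.1 h1).1
  obtain ⟨Q, hQ⟩ := (QuotientAddGroup.eq_zero_iff P).1 (h2.elim _ _)
  exact ⟨Q, (two_nsmul Q).symm.trans hQ⟩

end Pool.Agent.Lib.MP_788af2_nt.FF
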